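import Mathlib

set_option autoImplicit false
open scoped InnerProductSpace

namespace Pool.Agent.Results.MP_02ff8d_an.Stair

variable {X : Type} [NormedAddCommGroup X] [InnerProductSpace ℝ X]

/-- Legendre–Fenchel conjugate -/
noncomputable def conj (f : X → EReal) (y : X) : EReal := ⨆ x, ((⟪y, x⟫_ℝ : ℝ) : EReal) - f x

/-- the quadratic solution `f₀` -/
noncomputable def f0 (τ : ℝ) (c w : X) (β : ℝ) (E : X ≃L[ℝ] X) (x : X) : ℝ :=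
  1 / 2 * ⟪√τ • E x, x⟫_ℝ + ⟪(1 + √τ)⁻¹ • (w + √τ • c), x⟫_ℝ +
    (β * (1 + √τ) ^ 2 + 1 / 2 * √τ * ⟪c - w, E.symm (c - w)⟫_ℝ) / ((1 + √τ) ^ 2 * (τ + 1))

noncomputable def g (x : ℝ) : ℝ := (⌊x⌋ + 1) * x - ⌊x⌋ * (⌊x⌋ + 1) / 2

lemma g_ge (x : ℝ) (j : ℤ) : (j + 1) * x - j * (j + 1) / 2 ≤ g x := by
  have h1 := Int.floor_le x
  have h2 := Int.lt_floor_add_one x
  unfold g
  rcases lt_trichotomy j ⌊x⌋ with h | h | h
  · have : (j : ℝ) + 1 ≤ ⌊x⌋ := by exact_mod_cast h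
    nlinarith
  · rw [h]
  · have : (⌊x⌋ : ℝ) + 1 ≤ j := by exact_mod_cast h
    nlinarith

lemma young (x y : ℝ) : (x + 1) * y - g y ≤ g x := by
  have h1 := Int.floor_le y
  have h2 := Int.lt_floor_add_one y
  have a := g_ge x (⌊y⌋ - 1)
  have b := g_ge x ⌊y⌋
  push_cast at a
  have e : g y = (⌊y⌋ + 1) * y - ⌊y⌋ * (⌊y⌋ + 1) / 2 := rfl
  rw [e]
  nlinarith [mul_le_mul_of_nonneg_left a (show 0 ≤ ⌊y⌋ + 1 - y by linarith),
    mul_le_mul_of_nonneg_left b (show 0 ≤ y - ⌊y⌋ by linarith)]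

theorem result : ∃ (τ : ℝ) (c w : ℝ) (β : ℝ) (E : ℝ ≃L[ℝ] ℝ), 0 < τ ∧
    (∀ x y, ⟪E x, y⟫_ℝ = ⟪x, E y⟫_ℝ) ∧ (∀ x, x ≠ 0 → 0 < ⟪E x, x⟫_ℝ) ∧
    ∃ f : ℝ → EReal,
      (∀ x, f x = (τ : EReal) * conj f (E x + c) + ((⟪w, x⟫_ℝ : ℝ) : EReal) + (β : EReal)) ∧
      f ≠ fun x => ((f0 τ c w β E x : ℝ) : EReal) := by
  refine ⟨1, 1, 0, 0, ContinuousLinearEquiv.refl ℝ ℝ, one_pos, fun x y => rfl,
    fun x hx => real_inner_self_pos.2 hx, fun x => (g x : ℝ), fun x => ?_, fun h => ?_⟩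
  · have : conj (fun x => ((g x : ℝ) : EReal)) (x + 1) = (g x : ℝ) := by
      refine le_antisymm (iSup_le fun y => ?_) (le_iSup_of_le ((⌊x⌋ : ℝ) + 1) ?_)
      · rw [← EReal.coe_sub, EReal.coe_le_coe_iff]
        simpa [mul_comm] using young x y
      · rw [← EReal.coe_sub, EReal.coe_le_coe_iff]
        have e : ⌊(⌊x⌋ : ℝ) + 1⌋ = ⌊x⌋ + 1 := by simp
        simp only [g, e, RCLike.inner_apply, conj_trivial]
        push_cast
        nlinarith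
    simp [this]
  · have := congrFun h 0
    rw [EReal.coe_eq_coe_iff] at this
    simp [g, f0] at this
    norm_num at this

end Pool.Agent.Results.MP_02ff8d_an.Stair
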